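import Pool.Agent.Run7.h425.RN.Iface

/-!
# Pieces COC, SWAP of project RN (helper425), by helper711
-/

set_option autoImplicit false
set_option linter.all false

namespace Run7.h711.RN

open MeasureTheory Real
open scoped ENNReal
open Pool.Agent.Run7.h425.RN

theorem orb_add (a : ℝ) (p : T2) (ω : ℕ → Tc) (n m : ℕ) :
    orb a ω p (n + m) = orb a (sh n ω) (orb a ω p n) m := by
  induction m with
  | zero => rfl
  | succ m ih =>
    show nxt a (orb a ω p (n + m)) (ω (n + m)) = nxt a (orb a (sh n ω) (orb a ω p n) m) (sh n ω m)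
    rw [ih]
    rfl

theorem A_add (a : ℝ) (p : T2) (ω : ℕ → Tc) (n m : ℕ) :
    A a ω p (n + m) = (A a (sh n ω) (orb a ω p n) m).comp (A a ω p n) := by
  induction m with
  | zero =>
    show A a ω p n = (ContinuousLinearMap.id ℝ (ℝ × ℝ)).comp (A a ω p n)
    rw [ContinuousLinearMap.id_comp]
  | succ m ih =>
    show (J (g a (orb a ω p (n + m)).1)).comp (A a ω p (n + m)) =
      ((J (g a (orb a (sh n ω) (orb a ω p n) m).1)).comp (A a (sh n ω) (orb a ω p n) m)).comp
        (A a ω p n)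
    rw [ih, orb_add, ContinuousLinearMap.comp_assoc]

theorem loc (a : ℝ) (p : T2) (ω ω' : ℕ → Tc) (n : ℕ) (h : ∀ i < n, ω i = ω' i) :
    orb a ω p n = orb a ω' p n ∧ A a ω p n = A a ω' p n := by
  induction n with
  | zero => exact ⟨rfl, rfl⟩
  | succ n ih =>
    obtain ⟨h1, h2⟩ := ih fun i hi => h i (by omega)
    constructor
    · show nxt a (orb a ω p n) (ω n) = nxt a (orb a ω' p n) (ω' n)
      rw [h1, h n (by omega)]
    · show (J (g a (orb a ω p n).1)).comp (A a ω p n) = (J (g a (orb a ω' p n).1)).comp (A a ω' p n)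
      rw [h1, h2]

theorem t_COC : S_COC := fun a p =>
  ⟨fun ω n m => ⟨orb_add a p ω n m, A_add a p ω n m⟩, fun ω ω' n h => loc a p ω ω' n h⟩

theorem t_SWAP : S_SWAP := by
  intro ν _ F hF
  -- both sides as integrals over the product
  have e1 : ∫⁻ x₁ : Tc, ∫⁻ x₂ : Tc, ∫⁻ x₃ : Tc, ∫⁻ x₄ : Tc, ∫⁻ ω, F (x₁, x₂, x₃, x₄, ω) ∂(PP ν) =
      ∫⁻ q : Tc × Tc × Tc × Tc × (ℕ → Tc), F q ∂((volume : Measure Tc).prod
        ((volume : Measure Tc).prod ((volume : Measure Tc).prod ((volume : Measure Tc).prod (PP ν))))) := by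
    rw [lintegral_prod _ hF.aemeasurable]
    refine lintegral_congr fun x₁ => ?_
    rw [lintegral_prod _ (by fun_prop)]
    refine lintegral_congr fun x₂ => ?_
    rw [lintegral_prod _ (by fun_prop)]
    refine lintegral_congr fun x₃ => ?_
    rw [lintegral_prod _ (by fun_prop)]
  have e2 : ∫⁻ x₃ : Tc, ∫⁻ x₄ : Tc, ∫⁻ ω, ∫⁻ x₁ : Tc, ∫⁻ x₂ : Tc, F (x₁, x₂, x₃, x₄, ω) ∂volume
      ∂volume ∂(PP ν) =
      ∫⁻ r : Tc × Tc × (ℕ → Tc), ∫⁻ s : Tc × Tc, F (s.1, s.2, r.1, r.2.1, r.2.2)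
        ∂((volume : Measure Tc).prod (volume : Measure Tc))
        ∂((volume : Measure Tc).prod ((volume : Measure Tc).prod (PP ν))) := by
    have hm : Measurable fun r : Tc × Tc × (ℕ → Tc) => ∫⁻ s : Tc × Tc,
        F (s.1, s.2, r.1, r.2.1, r.2.2) ∂((volume : Measure Tc).prod (volume : Measure Tc)) :=
      Measurable.lintegral_prod_right' (f := fun z : (Tc × Tc × (ℕ → Tc)) × (Tc × Tc) =>
        F (z.2.1, z.2.2, z.1.1, z.1.2.1, z.1.2.2)) (by fun_prop)
    rw [lintegral_prod _ hm.aemeasurable]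
    refine lintegral_congr fun x₃ => ?_
    rw [lintegral_prod _ (by fun_prop)]
    refine lintegral_congr fun x₄ => lintegral_congr fun ω => ?_
    rw [lintegral_prod _ (by fun_prop)]
  have hz : Measurable (Function.uncurry fun (r : Tc × Tc × (ℕ → Tc)) (s : Tc × Tc) =>
      F (s.1, s.2, r.1, r.2.1, r.2.2)) := by
    show Measurable fun z : (Tc × Tc × (ℕ → Tc)) × (Tc × Tc) =>
        F (z.2.1, z.2.2, z.1.1, z.1.2.1, z.1.2.2)
    fun_prop
  have e3 := lintegral_lintegral_swap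
    (μ := (volume : Measure Tc).prod ((volume : Measure Tc).prod (PP ν)))
    (ν := (volume : Measure Tc).prod (volume : Measure Tc))
    (f := fun r s => F (s.1, s.2, r.1, r.2.1, r.2.2)) hz.aemeasurable
  have e4 : ∫⁻ s : Tc × Tc, ∫⁻ r : Tc × Tc × (ℕ → Tc), F (s.1, s.2, r.1, r.2.1, r.2.2)
        ∂((volume : Measure Tc).prod ((volume : Measure Tc).prod (PP ν)))
        ∂((volume : Measure Tc).prod (volume : Measure Tc)) =
      ∫⁻ q : Tc × Tc × Tc × Tc × (ℕ → Tc), F q ∂((volume : Measure Tc).prod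
        ((volume : Measure Tc).prod ((volume : Measure Tc).prod ((volume : Measure Tc).prod (PP ν))))) := by
    have hm : Measurable fun s : Tc × Tc => ∫⁻ r : Tc × Tc × (ℕ → Tc),
        F (s.1, s.2, r.1, r.2.1, r.2.2)
          ∂((volume : Measure Tc).prod ((volume : Measure Tc).prod (PP ν))) :=
      Measurable.lintegral_prod_right' (f := fun z : (Tc × Tc) × (Tc × Tc × (ℕ → Tc)) =>
        F (z.1.1, z.1.2, z.2.1, z.2.2.1, z.2.2.2)) (by fun_prop)
    rw [lintegral_prod _ hm.aemeasurable, lintegral_prod _ hF.aemeasurable]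
    refine lintegral_congr fun x₁ => ?_
    rw [lintegral_prod _ (by fun_prop)]
  exact e1.trans (e4.symm.trans (e3.symm.trans e2.symm))

end Run7.h711.RN
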