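import Pool.Agent.Run7.h425.RN.Iface

/-!
# Pieces MATR of project RN (helper425), by helper711
-/

set_option autoImplicit false
set_option linter.all false

namespace Run7.h711.RN

open MeasureTheory Real
open scoped ENNReal
open Pool.Agent.Run7.h425.RN

theorem cs_le (x : Tc) : |cs x| ≤ 1 := by
  unfold cs
  refine (Complex.abs_re_le_norm _).trans ?_
  rw [fourier_apply]
  exact (Circle.norm_coe _).le

theorem g_le {a : ℝ} (ha : 1 ≤ |a|) (x : Tc) : |g a x| ≤ 9 * |a| := by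
  unfold g
  have h1 := abs_add_le (2 : ℝ) (2 * π * a * cs x)
  have h2 : |2 * π * a * cs x| = 2 * π * |a| * |cs x| := by
    rw [abs_mul, abs_mul, abs_mul, abs_of_pos Real.pi_pos]
    norm_num
  have h3 := cs_le x
  have hp := Real.pi_pos
  have h4 : 2 * π * |a| * |cs x| ≤ 2 * π * |a| * 1 :=
    mul_le_mul_of_nonneg_left h3 (by positivity)
  have h5 : π < 3.15 := Real.pi_lt_d2
  have h6 : |(2 : ℝ)| = 2 := by norm_num
  rw [h2, h6] at h1
  nlinarith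

theorem pw_anti {r y y' : ℝ} (hr : 0 ≤ r) (h : |y| ≤ |y'|) : pw r y' ≤ pw r y := by
  unfold pw
  rw [ENNReal.rpow_neg, ENNReal.rpow_neg, ENNReal.inv_le_inv]
  exact ENNReal.rpow_le_rpow (ENNReal.ofReal_le_ofReal h) hr

theorem real_ineq {a : ℝ} (ha : 1 ≤ |a|) {r1 r2 u1 u2 gg w R U : ℝ} (hg : |gg| ≤ 9 * |a|)
    (hw : w = gg * u1 - u2) (hR : R = max |r1| |r2|) (hU : U = max |u1| |u2|) :
    R * w ^ 2 ≤ 20 * |a| * U * max |2 * π * a * (r1 * w)| |2 * (r1 * w) + r2 * w - r1 * u1| := by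
  obtain ⟨κ, hκ⟩ : ∃ κ, κ = max |2 * π * a * (r1 * w)| |2 * (r1 * w) + r2 * w - r1 * u1| := ⟨_, rfl⟩
  rw [← hκ]
  have kA : |2 * π * a * (r1 * w)| ≤ κ := by rw [hκ]; exact le_max_left _ _
  have kB : |2 * (r1 * w) + r2 * w - r1 * u1| ≤ κ := by rw [hκ]; exact le_max_right _ _
  have hκ0 : 0 ≤ κ := (abs_nonneg _).trans kA
  have hp := Real.pi_gt_three
  have hU1 : |u1| ≤ U := by rw [hU]; exact le_max_left _ _
  have hU2 : |u2| ≤ U := by rw [hU]; exact le_max_right _ _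
  have hU0 : 0 ≤ U := (abs_nonneg _).trans hU1
  obtain ⟨s, hs⟩ : ∃ s, s = |r1 * w| := ⟨_, rfl⟩
  have hs0 : 0 ≤ s := by rw [hs]; exact abs_nonneg _
  have h6 : 6 * s ≤ κ := by
    refine le_trans ?_ kA
    have e : |2 * π * a * (r1 * w)| = 2 * π * |a| * s := by
      rw [abs_mul, abs_mul, abs_mul, abs_of_pos Real.pi_pos, hs]
      norm_num
    rw [e]
    have h1 : (6 : ℝ) ≤ 2 * π * |a| := by nlinarith
    exact mul_le_mul_of_nonneg_right h1 hs0
  obtain ⟨W, hW⟩ : ∃ W, W = 10 * |a| * U := ⟨_, rfl⟩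
  have hUW : U ≤ W := by rw [hW]; nlinarith
  have hwW : |w| ≤ W := by
    rw [hw, hW]
    have h1 := abs_sub (gg * u1) u2
    rw [abs_mul] at h1
    have h2 : |gg| * |u1| ≤ 9 * |a| * U :=
      mul_le_mul hg hU1 (abs_nonneg _) (by positivity)
    have h3 : U ≤ |a| * U := by nlinarith
    nlinarith
  have hW0 : 0 ≤ W := hU0.trans hUW
  have e1 : |r1| * w ^ 2 = s * |w| := by
    rw [hs, abs_mul, ← sq_abs w]
    ring
  have hr1 : |r1| * w ^ 2 ≤ 2 * κ * W := by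
    rw [e1]
    have : s * |w| ≤ κ * W := mul_le_mul (by linarith) hwW (abs_nonneg _) hκ0
    nlinarith [mul_nonneg hκ0 hW0]
  have hr2 : |r2| * w ^ 2 ≤ 2 * κ * W := by
    have e2 : |r2| * w ^ 2 = |r2 * w| * |w| := by
      rw [abs_mul, ← sq_abs w]
      ring
    have h1 : |r2 * w| ≤ κ + 2 * s + |r1| * |u1| := by
      have e3 : r2 * w = (2 * (r1 * w) + r2 * w - r1 * u1) - 2 * (r1 * w) + r1 * u1 := by ring
      have h2 := abs_add_le ((2 * (r1 * w) + r2 * w - r1 * u1) - 2 * (r1 * w)) (r1 * u1)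
      have h3 := abs_sub (2 * (r1 * w) + r2 * w - r1 * u1) (2 * (r1 * w))
      have h4 : |2 * (r1 * w)| = 2 * s := by rw [abs_mul, hs]; norm_num
      rw [abs_mul r1 u1] at h2
      rw [h4] at h3
      calc |r2 * w| = |(2 * (r1 * w) + r2 * w - r1 * u1) - 2 * (r1 * w) + r1 * u1| := by rw [← e3]
        _ ≤ _ := h2
        _ ≤ _ := by linarith
    have h2 : |r1| * |u1| * |w| = s * |u1| := by rw [hs, abs_mul]; ring
    have h3 : |r2 * w| * |w| ≤ (κ + 2 * s + |r1| * |u1|) * |w| :=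
      mul_le_mul_of_nonneg_right h1 (abs_nonneg _)
    have h4 : (κ + 2 * s + |r1| * |u1|) * |w| = (κ + 2 * s) * |w| + s * |u1| := by
      rw [add_mul, h2]
    have h5 : (κ + 2 * s) * |w| ≤ (κ + 2 * s) * W := mul_le_mul_of_nonneg_left hwW (by positivity)
    have h7 : s * |u1| ≤ s * W := mul_le_mul_of_nonneg_left (hU1.trans hUW) hs0
    have h8 : s * W * 6 ≤ κ * W := by nlinarith
    rw [e2]
    nlinarith
  have hfin : R * w ^ 2 ≤ 2 * κ * W := by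
    rw [hR]
    rcases le_total |r1| |r2| with h | h
    · rw [max_eq_right h]; exact hr2
    · rw [max_eq_left h]; exact hr1
  rw [hW] at hfin
  linarith

theorem const_ineq {α R U : ℝ} (hα : 1 ≤ α) (hR : 0 < R) (hU : 0 < U) :
    64 * ((R / (20 * α * U)) ^ (-(1 / 8) : ℝ) * (U / 2) ^ (-(1 / 4) : ℝ)) ≤
      128 * α * (R ^ (-(1 / 8) : ℝ) * U ^ (-(1 / 8) : ℝ)) := by
  have hα0 : 0 < α := by linarith
  have h1 : (U / 2) ^ (-(1 / 4) : ℝ) = ((U / 2) ^ 2) ^ (-(1 / 8) : ℝ) := by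
    rw [← Real.rpow_natCast, ← Real.rpow_mul (by positivity)]
    norm_num
  have h2 : (R / (20 * α * U)) ^ (-(1 / 8) : ℝ) * ((U / 2) ^ 2) ^ (-(1 / 8) : ℝ) =
      (R * U / (80 * α)) ^ (-(1 / 8) : ℝ) := by
    rw [← Real.mul_rpow (by positivity) (by positivity)]
    congr 1
    field_simp
    ring
  have h3 : (R * U / (80 * α)) ^ (-(1 / 8) : ℝ) =
      (80 * α) ^ (1 / 8 : ℝ) * (R ^ (-(1 / 8) : ℝ) * U ^ (-(1 / 8) : ℝ)) := by
    rw [Real.div_rpow (by positivity) (by positivity), Real.mul_rpow hR.le hU.le,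
      Real.rpow_neg (by positivity : (0 : ℝ) ≤ 80 * α), div_inv_eq_mul]
    ring
  have h4 : (80 * α) ^ (1 / 8 : ℝ) ≤ 2 * α := by
    have h5 : 80 * α ≤ (2 * α) ^ 8 := by
      have h6 : 1 ≤ α ^ 7 := one_le_pow₀ hα
      have h7 : (2 * α) ^ 8 = 256 * (α * α ^ 7) := by ring
      rw [h7]
      nlinarith
    have h8 : ((2 * α) ^ 8) ^ (1 / 8 : ℝ) = 2 * α := by
      have := Real.pow_rpow_inv_natCast (x := 2 * α) (n := 8) (by positivity) (by norm_num)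
      rw [show (1 / 8 : ℝ) = ((8 : ℕ) : ℝ)⁻¹ by norm_num]
      exact this
    rw [← h8]
    exact Real.rpow_le_rpow (by positivity) h5 (by norm_num)
  rw [h1, h2, h3]
  have h9 : 0 < R ^ (-(1 / 8) : ℝ) * U ^ (-(1 / 8) : ℝ) := by positivity
  nlinarith

theorem t_MATR (hCOS : S_COS) : S_MATR := by
  intro a ha ρ u hρ hu
  have hR : 0 < ‖ρ‖ := norm_pos_iff.2 hρ
  have hU : 0 < ‖u‖ := norm_pos_iff.2 hu
  have ha0 : 0 < |a| := by linarith
  have hpi := Real.pi_gt_three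
  obtain ⟨c, hc⟩ : ∃ c, c = ‖ρ‖ / (20 * |a| * ‖u‖) := ⟨_, rfl⟩
  have hc0 : 0 < c := by rw [hc]; positivity
  have hRd : ‖ρ‖ = max |ρ.1| |ρ.2| := Prod.norm_def ρ
  have hUd : ‖u‖ = max |u.1| |u.2| := Prod.norm_def u
  have inner : ∀ x₁ : Tc, ∫⁻ x₂ : Tc, pw (1 / 8) (ρ.1 * (g a x₂ * (g a x₁ * u.1 - u.2) - u.1) +
      ρ.2 * (g a x₁ * u.1 - u.2)) ≤
      8 * (ENNReal.ofReal c ^ (-(1 / 8) : ℝ)) * pw (1 / 4) (g a x₁ * u.1 - u.2) := by
    intro x₁
    obtain ⟨w, hw⟩ : ∃ w, w = g a x₁ * u.1 - u.2 := ⟨_, rfl⟩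
    rw [← hw]
    have h1 := hCOS (1 / 8) (by norm_num) (by norm_num) (2 * π * a * (ρ.1 * w))
      (2 * (ρ.1 * w) + ρ.2 * w - ρ.1 * u.1)
    have h2 : ∫⁻ x₂ : Tc, pw (1 / 8) (ρ.1 * (g a x₂ * w - u.1) + ρ.2 * w) =
        ∫⁻ x₂ : Tc, pw (1 / 8) (2 * π * a * (ρ.1 * w) * cs x₂ +
          (2 * (ρ.1 * w) + ρ.2 * w - ρ.1 * u.1)) := by
      refine lintegral_congr fun x₂ => ?_
      congr 1
      unfold g
      ring
    rw [h2]
    refine h1.trans ?_
    refine le_trans (mul_le_mul_right ?_ (8 : ℝ≥0∞)) (le_of_eq (mul_assoc _ _ _).symm)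
    obtain ⟨κ, hκ⟩ : ∃ κ, κ = max |2 * π * a * (ρ.1 * w)| |2 * (ρ.1 * w) + ρ.2 * w - ρ.1 * u.1| :=
      ⟨_, rfl⟩
    rw [← hκ]
    have hk : c * w ^ 2 ≤ κ := by
      rw [hc, div_mul_eq_mul_div, div_le_iff₀ (by positivity), hκ]
      have := real_ineq ha (g_le ha x₁) hw hRd hUd
      linarith
    have hκ0 : 0 ≤ κ := le_trans (by positivity) hk
    calc pw (1 / 8) κ ≤ pw (1 / 8) (c * w ^ 2) := by
          refine pw_anti (by norm_num) ?_
          rw [abs_of_nonneg hκ0, abs_of_nonneg (by positivity)]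
          exact hk
      _ = ENNReal.ofReal c ^ (-(1 / 8) : ℝ) * pw (1 / 4) w := by
          unfold pw
          rw [abs_of_nonneg (by positivity : 0 ≤ c * w ^ 2), ENNReal.ofReal_mul hc0.le,
            ENNReal.mul_rpow_of_ne_top ENNReal.ofReal_ne_top ENNReal.ofReal_ne_top, ← sq_abs w,
            ENNReal.ofReal_pow (abs_nonneg _), ← ENNReal.rpow_natCast, ← ENNReal.rpow_mul]
          norm_num
  have hK : 8 * (ENNReal.ofReal c ^ (-(1 / 8) : ℝ)) ≠ ⊤ := by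
    refine ENNReal.mul_ne_top (by norm_num) ?_
    rw [ENNReal.ofReal_rpow_of_pos hc0]
    exact ENNReal.ofReal_ne_top
  refine (lintegral_mono inner).trans ?_
  rw [lintegral_const_mul' _ _ hK]
  have h3 := hCOS (1 / 4) (by norm_num) le_rfl (2 * π * a * u.1) (2 * u.1 - u.2)
  have h4 : ∫⁻ x : Tc, pw (1 / 4) (g a x * u.1 - u.2) =
      ∫⁻ x : Tc, pw (1 / 4) (2 * π * a * u.1 * cs x + (2 * u.1 - u.2)) := by
    refine lintegral_congr fun x => ?_
    congr 1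
    unfold g
    ring
  have h5 : pw (1 / 4) (max |2 * π * a * u.1| |2 * u.1 - u.2|) ≤
      ENNReal.ofReal ((‖u‖ / 2) ^ (-(1 / 4) : ℝ)) := by
    have h6 : ‖u‖ / 2 ≤ max |2 * π * a * u.1| |2 * u.1 - u.2| := by
      obtain ⟨M, hM⟩ : ∃ M, M = max |2 * π * a * u.1| |2 * u.1 - u.2| := ⟨_, rfl⟩
      rw [← hM]
      have k1 : |2 * π * a * u.1| ≤ M := by rw [hM]; exact le_max_left _ _
      have k2 : |2 * u.1 - u.2| ≤ M := by rw [hM]; exact le_max_right _ _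
      have e : |2 * π * a * u.1| = 2 * π * |a| * |u.1| := by
        rw [abs_mul, abs_mul, abs_mul, abs_of_pos Real.pi_pos]
        norm_num
      have k3 : 6 * |u.1| ≤ M := by
        refine le_trans ?_ k1
        rw [e]
        have h1 : (6 : ℝ) ≤ 2 * π * |a| := by nlinarith
        exact mul_le_mul_of_nonneg_right h1 (abs_nonneg _)
      have k4 : |u.2| ≤ M + 2 * |u.1| := by
        have h1 : u.2 = 2 * u.1 - (2 * u.1 - u.2) := by ring
        have h2 := abs_sub (2 * u.1) (2 * u.1 - u.2)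
        rw [← h1, abs_mul] at h2
        have h7 : |(2 : ℝ)| = 2 := by norm_num
        rw [h7] at h2
        linarith
      have hM0 : 0 ≤ M := (abs_nonneg _).trans k1
      rw [hUd]
      have h8 : max |u.1| |u.2| ≤ 2 * M := max_le (by linarith) (by linarith)
      linarith
    refine (pw_anti (by norm_num) (y := ‖u‖ / 2) ?_).trans (le_of_eq ?_)
    · rw [abs_of_nonneg (by positivity), abs_of_nonneg (le_trans (by positivity) h6)]
      exact h6
    · unfold pw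
      rw [abs_of_nonneg (by positivity), ENNReal.ofReal_rpow_of_pos (by positivity)]
  rw [h4]
  have h7 : 8 * (ENNReal.ofReal c ^ (-(1 / 8) : ℝ)) *
      ∫⁻ x : Tc, pw (1 / 4) (2 * π * a * u.1 * cs x + (2 * u.1 - u.2)) ≤
      8 * (ENNReal.ofReal c ^ (-(1 / 8) : ℝ)) * (8 * ENNReal.ofReal ((‖u‖ / 2) ^ (-(1 / 4) : ℝ))) :=
    mul_le_mul_right (h3.trans (mul_le_mul_right h5 8)) _
  refine h7.trans ?_
  have h8 : 8 * (ENNReal.ofReal c ^ (-(1 / 8) : ℝ)) * (8 * ENNReal.ofReal ((‖u‖ / 2) ^ (-(1 / 4) : ℝ))) =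
      ENNReal.ofReal (64 * (c ^ (-(1 / 8) : ℝ) * (‖u‖ / 2) ^ (-(1 / 4) : ℝ))) := by
    have e8 : (8 : ℝ≥0∞) = ENNReal.ofReal 8 := by norm_num
    rw [ENNReal.ofReal_rpow_of_pos hc0, e8, ← ENNReal.ofReal_mul (by norm_num),
      ← ENNReal.ofReal_mul (by norm_num), ← ENNReal.ofReal_mul (by positivity)]
    congr 1
    ring
  have h9 : ENNReal.ofReal (128 * |a|) * (pw (1 / 8) ‖ρ‖ * pw (1 / 8) ‖u‖) =
      ENNReal.ofReal (128 * |a| * (‖ρ‖ ^ (-(1 / 8) : ℝ) * ‖u‖ ^ (-(1 / 8) : ℝ))) := by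
    unfold pw
    rw [abs_of_nonneg hR.le, abs_of_nonneg hU.le, ENNReal.ofReal_rpow_of_pos hR,
      ENNReal.ofReal_rpow_of_pos hU, ← ENNReal.ofReal_mul (by positivity),
      ← ENNReal.ofReal_mul (by positivity)]
  rw [h8, h9, hc]
  exact ENNReal.ofReal_le_ofReal (const_ineq ha hR hU)

end Run7.h711.RN
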